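import Pool.Graph.R_pool_sql_team_seeded_3dad9d7b.NH57.BK.C8

/-!
# Project G2: the characters `κ ^ a κ' ^ b` with `a + b` odd, modulo eight

Generalization of `NH57/BK/C8.lean` (the exponents `j`, `1 - j`) to arbitrary exponents.
-/

set_option autoImplicit false
set_option linter.unusedVariables false

namespace Pool.Agent.H519.G2

open Pool.Agent.R384
open Pool.Agent.NH57.BK
open Pool.Agent.Y676.IS (Cu)
open Pool.Agent.Y715.Red Pool.Agent.Y715.Nr Pool.Agent.W237.RK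
open Pool.Agent.Y715.Gi (QB KK GK)
open Pool.Agent.Y715.Df (Cmp)

open scoped Classical

variable {i₀ : QB} (hi : i₀ ^ 2 = i₀ - 2) {κ κ' : GK i₀ →* ℤ_[2]ˣ} {D : OO} {r I : QB}

lemma ap_ab (a b : ℤ) (σ : GK i₀) :
    (κ ^ a * κ' ^ b : GK i₀ →* ℤ_[2]ˣ) σ = (κ σ) ^ a * (κ' σ) ^ b := rfl

/-- a square times a unit is congruent to the unit modulo eight -/
lemma sq_mul8 (u v : ℤ_[2]ˣ) : (8 : ℤ_[2]) ∣ ((u ^ 2 * v : ℤ_[2]ˣ) : ℤ_[2]) - v := by
  have h8 := C8P.sq_unit u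
  have := dvd_mul_of_dvd_left h8 (v : ℤ_[2])
  have e3 : ((u ^ 2 * v : ℤ_[2]ˣ) : ℤ_[2]) - v = ((u : ℤ_[2]) ^ 2 - 1) * (v : ℤ_[2]) := by
    rw [Units.val_mul (_ ^ 2), Units.val_pow_eq_pow_val]
    ring
  rw [e3]
  exact this

lemma ab_even {a b : ℤ} (ha : Even a) (hb : Odd b) (σ : GK i₀) :
    (8 : ℤ_[2]) ∣ (((κ ^ a * κ' ^ b : GK i₀ →* ℤ_[2]ˣ) σ : ℤ_[2]ˣ) : ℤ_[2]) - κ' σ := by
  obtain ⟨k, hk⟩ := ha
  obtain ⟨l, hl⟩ := hb
  have e : (κ ^ a * κ' ^ b : GK i₀ →* ℤ_[2]ˣ) σ = ((κ σ) ^ k * (κ' σ) ^ l) ^ 2 * κ' σ := by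
    rw [ap_ab, hk, hl, mul_pow, ← zpow_natCast, ← zpow_natCast, ← zpow_mul, ← zpow_mul]
    have e1 : k + k = k * ((2 : ℕ) : ℤ) := by push_cast; ring
    have e2 : 2 * l + 1 = l * ((2 : ℕ) : ℤ) + 1 := by push_cast; ring
    rw [e2, e1, zpow_add (κ' σ), zpow_one, ← mul_assoc]
  rw [e]
  exact sq_mul8 _ _

lemma ab_odd {a b : ℤ} (ha : Odd a) (hb : Even b) (σ : GK i₀) :
    (8 : ℤ_[2]) ∣ (((κ ^ a * κ' ^ b : GK i₀ →* ℤ_[2]ˣ) σ : ℤ_[2]ˣ) : ℤ_[2]) - κ σ := by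
  obtain ⟨k, hk⟩ := hb
  obtain ⟨l, hl⟩ := ha
  have e : (κ ^ a * κ' ^ b : GK i₀ →* ℤ_[2]ˣ) σ = ((κ σ) ^ l * (κ' σ) ^ k) ^ 2 * κ σ := by
    rw [ap_ab, hk, hl, mul_pow, ← zpow_natCast, ← zpow_natCast, ← zpow_mul, ← zpow_mul]
    have e1 : k + k = k * ((2 : ℕ) : ℤ) := by push_cast; ring
    have e2 : 2 * l + 1 = l * ((2 : ℕ) : ℤ) + 1 := by push_cast; ring
    rw [e2, e1, zpow_add (κ σ), zpow_one]
    exact mul_right_comm _ _ _
  rw [e]
  exact sq_mul8 _ _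

include hi in
theorem chiDab (kd : KD hi κ κ' D r I) (a b : ℤ) :
    (Even a → Odd b → ChiD hi (κ ^ a * κ' ^ b) D r) ∧
    (Odd a → Even b → ChiD hi (κ ^ a * κ' ^ b) (-D) (I * r)) := by
  have hcont : Continuous (κ ^ a * κ' ^ b : GK i₀ →* ℤ_[2]ˣ) := by
    have h1 : Continuous fun σ => (κ σ) ^ a * (κ' σ) ^ b :=
      (kd.cont.zpow a).mul (kd.cont'.zpow b)
    exact h1
  have hinert : Odd (a + b) → ∀ (p : ℕ) [Fact p.Prime] (ι : QB →ₐ[ℚ] PadicAlgCl p) (τ : Au p)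
      (σ : GK i₀), p ≠ 2 → Cmp ι τ σ → Inert τ →
      (σ r = r → (κ ^ a * κ' ^ b : GK i₀ →* ℤ_[2]ˣ) σ = 1) ∧
        (σ r = -r → (κ ^ a * κ' ^ b : GK i₀ →* ℤ_[2]ˣ) σ = -1) := by
    intro hab p _ ι τ σ hp hc hin
    obtain ⟨n1, n2⟩ := norm_w_odd hi hp ι
    have hσI := kd.fixI hi hp hc hin
    have a1 := kd.inert p ι τ σ hc hin n1
    have a2 := kd.inert' p ι τ σ hc hin n2
    rw [ap_ab]
    constructor
    · intro h
      rw [a1.1 (by rw [map_mul, hσI, h]), a2.1 h, one_zpow, one_zpow, one_mul]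
    · intro h
      rw [a1.2 (by rw [map_mul, hσI, h, mul_neg]), a2.2 h, ← zpow_add, hab.neg_one_zpow]
  constructor
  · intro ha hb
    have hinert := hinert (ha.add_odd hb)
    have hph : ∀ σ, ph ((κ ^ a * κ' ^ b : GK i₀ →* ℤ_[2]ˣ) σ) = ph (κ' σ) := by
      obtain ⟨k, hk⟩ := ha
      obtain ⟨l, hl⟩ := hb
      have hk' : a = 2 * k := by omega
      intro σ
      rw [ap_ab, map_mul, map_zpow, map_zpow, hk', zpow_even (sq_four _), one_mul, hl, zpow_add,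
        zpow_even (sq_four _), zpow_one, one_mul]
    refine ⟨hcont, kd.hr, ?_, ?_, hinert⟩
    · intro σ h
      rw [← ph_one, hph]
      exact kd.one' σ h
    · intro σ h
      rw [← ph_neg, hph]
      exact kd.neg' σ h
  · intro ha hb
    have hinert := hinert (ha.add_even hb)
    have hph : ∀ σ, ph ((κ ^ a * κ' ^ b : GK i₀ →* ℤ_[2]ˣ) σ) = ph (κ σ) := by
      obtain ⟨k, hk⟩ := ha
      obtain ⟨l, hl⟩ := hb
      have hl' : b = 2 * l := by omega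
      intro σ
      rw [ap_ab, map_mul, map_zpow, map_zpow, hl', zpow_even (sq_four _), mul_one, hk, zpow_add,
        zpow_even (sq_four _), zpow_one, one_mul]
    refine ⟨hcont, ?_, ?_, ?_, ?_⟩
    · rw [mul_pow, kd.hI, kd.hr, map_neg]
      ring
    · intro σ h
      rw [← ph_one, hph]
      exact kd.one σ h
    · intro σ h
      rw [← ph_neg, hph]
      exact kd.neg σ h
    · intro p _ ι τ σ hp hc hin
      have hσI := kd.fixI hi hp hc hin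
      have hI0 : I ≠ 0 := by
        rintro h0
        have := kd.hI
        rw [h0] at this
        norm_num at this
      obtain ⟨a1, a2⟩ := hinert p ι τ σ hp hc hin
      constructor
      · intro h
        apply a1
        rw [map_mul, hσI] at h
        exact mul_left_cancel₀ hI0 h
      · intro h
        apply a2
        rw [map_mul, hσI, ← mul_neg] at h
        exact mul_left_cancel₀ hI0 h

/-- The characters `κ ^ a κ' ^ b`, `a + b` odd, modulo eight. -/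
theorem c8_ab (kd : KD hi κ κ' D r I) (k8 : K8 κ κ') (a b : ℤ) :
    (Even a → Odd b → ∃ s : QB, C8 hi (κ ^ a * κ' ^ b) D s (1 - om)) ∧
    (Odd a → Even b → ∃ s : QB, C8 hi (κ ^ a * κ' ^ b) (-D) s om) := by
  obtain ⟨h1, h2⟩ := chiDab hi kd a b
  constructor
  · intro ha hb
    refine ⟨r, h1 ha hb, ?_, ?_⟩
    · intro s hs σ hσ
      rw [map_sub, map_one, C8P.em_om] at hs
      exact C8P.pm8_congr (ab_even ha hb σ) (k8.fix' s hs σ hσ)
    · intro s hs σ hσ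
      rw [map_sub, map_one, C8P.em_om] at hs
      exact C8P.pm8_congr (ab_even ha hb σ) (k8.mov' s hs σ hσ)
  · intro ha hb
    refine ⟨I * r, h2 ha hb, ?_, ?_⟩
    · intro s hs σ hσ
      rw [C8P.em_om] at hs
      exact C8P.pm8_congr (ab_odd ha hb σ) (k8.fix s hs σ hσ)
    · intro s hs σ hσ
      rw [C8P.em_om] at hs
      exact C8P.pm8_congr (ab_odd ha hb σ) (k8.mov s hs σ hσ)

end Pool.Agent.H519.G2
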