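import Pool.Agent.H519.G2.Van
import Pool.Graph.R_pool_sql_team_seeded_5cf16337.K3h87.DM.LATTcore

/-!
# Project G2: at most one class without conditions at the places above two

For a good set the classes of `H¹(K, ℚ_2(χ))`, `χ = κ ^ a κ' ^ b`, `a + b` odd, which are unramified outside
`2` generate a space of dimension at most one.
-/

set_option autoImplicit false
set_option linter.unusedSectionVars false
set_option linter.unusedVariables false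

namespace Pool.Agent.H519.G2

open Pool.Agent.R384
open Pool.Agent.NH57.BK
open Pool.Agent.NH57.BK.Mn
open Pool.Agent.NH57.BG (e6 e3 S_SUPO S_RED8 S_VAL8 Fre8 S_FRE8)
open Pool.Agent.NH57.BH (S_FREG)
open Pool.Agent.Y676.IS (Cu)
open Pool.Agent.Y715.Red Pool.Agent.Y715.Nr Pool.Agent.W237.RK
open Pool.Agent.Y715.Gi (QB KK GK)
open Pool.Agent.Y715.Df (Cmp)

open scoped Classical

/-! ### Integral cocycles modulo two -/

section md

variable {G : Type} [Group G] [TopologicalSpace G]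

lemma md_add {c c' : G → ℚ_[2]} (h1 : ∀ σ, ‖c σ‖ ≤ 1) (h2 : ∀ σ, ‖c' σ‖ ≤ 1) (σ : G) :
    md (fun σ => c σ + c' σ) σ = md c σ + md c' σ := by
  unfold md
  by_cases hσ : ‖c σ‖ < 1
  · by_cases hτ : ‖c' σ‖ < 1
    · have : ‖c σ + c' σ‖ < 1 := add_lt' hσ hτ
      simp [hσ, hτ, this]
    · have : ¬ ‖c σ + c' σ‖ < 1 := by
        intro h
        apply hτ
        have e : c' σ = (c σ + c' σ) + -c σ := by ring
        rw [e]
        exact add_lt' h (by rwa [norm_neg])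
      simp [hσ, hτ, this]
  · by_cases hτ : ‖c' σ‖ < 1
    · have : ¬ ‖c σ + c' σ‖ < 1 := by
        intro h
        apply hσ
        have e : c σ = (c σ + c' σ) + -c' σ := by ring
        rw [e]
        exact add_lt' h (by rwa [norm_neg])
      simp [hσ, hτ, this]
    · have a1 := (md_eq (h1 σ)).1 hσ
      have a2 := (md_eq (h2 σ)).1 hτ
      have : ‖c σ + c' σ‖ < 1 := by
        have h20 : ‖(2 : ℚ_[2])‖ < 1 := by rw [norm_two']; norm_num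
        have h5 : ‖(c σ - 1) + (c' σ - 1) + 2‖ < 1 := add_lt' (add_lt' a1 a2) h20
        have e : c σ + c' σ = (c σ - 1) + (c' σ - 1) + 2 := by ring
        rw [e]
        exact h5
      simp only [hσ, hτ, this, if_true, if_false]
      decide

lemma md_neg (c : G → ℚ_[2]) (σ : G) : md (fun σ => -c σ) σ = md c σ := by
  unfold md
  rw [norm_neg]

end md

variable {i₀ : QB} (hi : i₀ ^ 2 = i₀ - 2)

/-- the norm of a squarefree element at a place above two -/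
lemma norm_sf {ϖ : OO} (hϖ : ϖ = om ∨ ϖ = 1 - om) {ι : QB →ₐ[ℚ] PadicAlgCl 2}
    (hι : ‖em (iw hi ι) ϖ‖ < 1) {δ : OO} (hδ : Squarefree δ) :
    ∃ e : ℤ, ‖em (iw hi ι) δ‖ = (2 : ℝ) ^ (-e) ∧ ((e = 1 ∧ ϖ ∣ δ) ∨ (e = 0 ∧ ¬ ϖ ∣ δ)) := by
  have hϖp : Prime ϖ := by
    rcases hϖ with rfl | rfl
    · exact prime_om
    · exact prime_om'
  by_cases h : ϖ ∣ δ
  · refine ⟨1, ?_, Or.inl ⟨rfl, h⟩⟩
    obtain ⟨t, rfl⟩ := h
    have h4 : ¬ ϖ ∣ t := by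
      rintro ⟨v, rfl⟩
      exact hϖp.not_isUnit (hδ ϖ ⟨v, by ring⟩)
    have h5 := eq_one_of_not_lt (iw hi ι) ((dvd_iff (iw hi ι) hϖp hι t).not.1 h4)
    have hhalf : ‖em (iw hi ι) ϖ‖ = 1 / 2 := by
      apply half_norm _ hι
      rw [← map_one (em (iw hi ι)), ← map_sub, ← map_mul]
      have e : ϖ * (1 - ϖ) = 2 := by
        rcases hϖ with rfl | rfl
        · rw [← om_mul]
        · rw [← om_mul]; ring
      rw [e, map_ofNat]
    rw [map_mul, norm_mul, h5, hhalf, mul_one]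
    norm_num
  · refine ⟨0, ?_, Or.inr ⟨rfl, h⟩⟩
    rw [neg_zero, zpow_zero]
    exact eq_one_of_not_lt (iw hi ι) ((dvd_iff (iw hi ι) hϖp hι δ).not.1 h)

/-- the reduction of `c` modulo two is the quadratic character of `δ` -/
def Kum (c : GK i₀ → ℚ_[2]) (δ : OO) : Prop :=
  ∃ s : QB, Squarefree δ ∧ s ^ 2 = em hi δ ∧ ∀ σ : GK i₀, σ s = s ↔ md c σ = 0

lemma exists_kum {χ : GK i₀ →* ℤ_[2]ˣ} {c : GK i₀ → ℚ_[2]} (hc : Coc χ c)
    (hint : ∀ σ, ‖c σ‖ ≤ 1) : ∃ δ, Kum hi c δ := by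
  obtain ⟨δ, hδ, hkum⟩ := kum hi (md c) (md_cont hc) (md_mul hc hint)
  obtain ⟨s, hs⟩ : ∃ s : QB, s ^ 2 = em hi δ := IsAlgClosed.exists_pow_nat_eq _ (by norm_num)
  exact ⟨δ, s, hδ, hs, hkum s hs⟩

/-- the parities at a place above two are additive -/
lemma parity {ϖ : OO} (hϖ : ϖ = om ∨ ϖ = 1 - om) {ι : QB →ₐ[ℚ] PadicAlgCl 2}
    (hι : ‖em (iw hi ι) ϖ‖ < 1) {c c' c'' : GK i₀ → ℚ_[2]}
    (hadd : ∀ σ, md c'' σ = md c σ + md c' σ) {δ δ' δ'' : OO} (h : Kum hi c δ) (h' : Kum hi c' δ')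
    (h'' : Kum hi c'' δ'') : (ϖ ∣ δ → ϖ ∣ δ' → ¬ ϖ ∣ δ'') ∧ (¬ ϖ ∣ δ → ¬ ϖ ∣ δ' → ¬ ϖ ∣ δ'') := by
  obtain ⟨s, hδ, hs, hk⟩ := h
  obtain ⟨s', hδ', hs', hk'⟩ := h'
  obtain ⟨s'', hδ'', hs'', hk''⟩ := h''
  have ne : ∀ {s : QB} {δ : OO}, Squarefree δ → s ^ 2 = em hi δ → s ≠ 0 := by
    rintro s δ hδ hs rfl
    rw [zero_pow two_ne_zero] at hs
    exact em_ne hi hδ.ne_zero hs.symm
  have h0 := ne hδ hs
  have h0' := ne hδ' hs'
  have h0'' := ne hδ'' hs''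
  set x : QB := s * s' / s'' with hx
  have hx0 : x ≠ 0 := div_ne_zero (mul_ne_zero h0 h0') h0''
  have hfix : ∀ σ : GK i₀, σ x = x := by
    intro σ
    have key : ∀ {s : QB} {δ : OO} {c : GK i₀ → ℚ_[2]}, s ≠ 0 → s ^ 2 = em hi δ →
        (∀ σ : GK i₀, σ s = s ↔ md c σ = 0) → ∃ e : QB, (e = 1 ∨ e = -1) ∧ σ s = e * s ∧
          (e = if md c σ = 0 then 1 else -1) := by
      intro s δ c h0 hs hk
      rcases rt_or hi hs σ with h | h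
      · exact ⟨1, Or.inl rfl, by rw [h, one_mul], by rw [if_pos ((hk σ).1 h)]⟩
      · refine ⟨-1, Or.inr rfl, by rw [h, neg_one_mul], ?_⟩
        rw [if_neg]
        intro h1
        have h2 := (hk σ).2 h1
        rw [h] at h2
        have h3 : (2 : QB) * s = 0 := by linear_combination -h2
        exact h0 ((mul_eq_zero.1 h3).resolve_left two_ne_zero)
    obtain ⟨e, he1, he2, he3⟩ := key h0 hs hk
    obtain ⟨e', he1', he2', he3'⟩ := key h0' hs' hk'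
    obtain ⟨e'', he1'', he2'', he3''⟩ := key h0'' hs'' hk''
    have hee : e'' = e * e' := by
      rw [he3, he3', he3'', hadd]
      have h01 : ∀ x : ZMod 2, x = 0 ∨ x = 1 := by decide
      rcases h01 (md c σ) with e1 | e1 <;> rcases h01 (md c' σ) with e2 | e2 <;> rw [e1, e2] <;>
        simp
      decide
    have hne : e'' ≠ 0 := by
      rcases he1'' with h | h <;> rw [h] <;> norm_num
    rw [hx, map_div₀, map_mul, he2, he2', he2'', hee]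
    rw [hee] at hne
    have e4 : e * s * (e' * s') / (e * e' * s'') = (e * e') / (e * e') * (s * s' / s'') := by
      rw [div_mul_div_comm]
      congr 1
      ring
    rw [e4, div_self hne, one_mul]
  have hιx : ι x ≠ 0 := (map_ne_zero_iff ι ι.injective).2 hx0
  obtain ⟨k, hk2⟩ := norm_odd (iw hi ι) (by norm_num) hιx
    (fun τ _ hτ => fix_D (ι := ι) (s := x) (fun σ _ => hfix σ) τ hτ)
  obtain ⟨a, ha1, ha2⟩ := norm_sf hi hϖ hι hδ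
  obtain ⟨a', ha1', ha2'⟩ := norm_sf hi hϖ hι hδ'
  obtain ⟨a'', ha1'', ha2''⟩ := norm_sf hi hϖ hι hδ''
  have e1 : ‖ι x‖ ^ 2 * ‖em (iw hi ι) δ''‖ = ‖em (iw hi ι) δ‖ * ‖em (iw hi ι) δ'‖ := by
    have e2 : (ι x) ^ 2 * em (iw hi ι) δ'' = em (iw hi ι) δ * em (iw hi ι) δ' := by
      have h1 : ∀ {s : QB} {δ : OO}, s ^ 2 = em hi δ → em (iw hi ι) δ = (ι s) ^ 2 := by
        intro s δ hs
        rw [← map_pow, hs, ι_em]
      rw [h1 hs, h1 hs', h1 hs'', ← map_pow, ← map_pow, ← map_pow, ← map_pow, ← map_mul, ← map_mul]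
      congr 1
      rw [hx]
      field_simp
    have := congrArg norm e2
    rw [norm_mul, norm_mul, norm_pow] at this
    exact this
  rw [hk2, ha1, ha1', ha1'', ← zpow_natCast, ← zpow_mul] at e1
  push_cast at e1
  rw [← zpow_add₀ (by norm_num), ← zpow_add₀ (by norm_num)] at e1
  have e3 := zpow_right_injective₀ (a := (2 : ℝ)) (by norm_num) (by norm_num) e1
  constructor
  · intro g1 g2 g3
    have b1 : a = 1 := by rcases ha2 with ⟨h, -⟩ | ⟨-, h⟩; exacts [h, absurd g1 h]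
    have b2 : a' = 1 := by rcases ha2' with ⟨h, -⟩ | ⟨-, h⟩; exacts [h, absurd g2 h]
    have b3 : a'' = 1 := by rcases ha2'' with ⟨h, -⟩ | ⟨-, h⟩; exacts [h, absurd g3 h]
    omega
  · intro g1 g2 g3
    have b1 : a = 0 := by rcases ha2 with ⟨-, h⟩ | ⟨h, -⟩; exacts [absurd h g1, h]
    have b2 : a' = 0 := by rcases ha2' with ⟨-, h⟩ | ⟨h, -⟩; exacts [absurd h g2, h]
    have b3 : a'' = 1 := by rcases ha2'' with ⟨h, -⟩ | ⟨-, h⟩; exacts [h, absurd g3 h]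
    omega

variable {χ : GK i₀ →* ℤ_[2]ˣ} {m : OO} {r : QB}

/-- the local conditions give `δ = 1` or `δ = m` -/
theorem delta_of (hFR8 : S_FRE8) (hFRG : S_FREG) (hFRE : S_FRE) (hALG : S_ALG) (hREC : S_REC)
    {S : Finset OO} (hS : GoodS S) {ϖ ϖ' : OO} (c8 : C8 hi χ m r ϖ') {w4 : ZMod 4}
    (hw4 : w4 ^ 2 = w4 - 2)
    (hcase : (m = -(s7 * ∏ q ∈ S, q) ∧ ϖ = om ∧ ϖ' = 1 - om ∧ w4 = 2) ∨
      (m = s7 * ∏ q ∈ S, q ∧ ϖ = 1 - om ∧ ϖ' = om ∧ w4 = 3))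
    (hm5 : ∀ ι : QB →ₐ[ℚ] PadicAlgCl 2, ‖em (iw hi ι) ϖ‖ < 1 → M15 (em (iw hi ι) m))
    (hm6 : ∀ ι : QB →ₐ[ℚ] PadicAlgCl 2, ‖em (iw hi ι) ϖ'‖ < 1 → M15 (em (iw hi ι) (-m)))
    {c : GK i₀ → ℚ_[2]} (hc : Coc χ c) (hint : ∀ σ, ‖c σ‖ ≤ 1)
    (hodd : ∀ (p : ℕ) [Fact p.Prime] (ι : QB →ₐ[ℚ] PadicAlgCl p), p ≠ 2 → CobOn χ (II ι) c)
    {δ : OO} (hδK : Kum hi c δ) (hnd : ¬ ϖ ∣ δ) : δ = 1 ∨ δ = m := by
  have cd := c8.cd
  have hPl : Pl ϖ ϖ' := by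
    rcases hcase with ⟨-, h1, h2, -⟩ | ⟨-, h1, h2, -⟩
    · exact Or.inl ⟨h1, h2⟩
    · exact Or.inr ⟨h1, h2⟩
  have hϖp : Prime ϖ := by
    rcases hPl with ⟨rfl, -⟩ | ⟨rfl, -⟩
    · exact prime_om
    · exact prime_om'
  have hϖp' : Prime ϖ' := by
    rcases hPl with ⟨-, rfl⟩ | ⟨-, rfl⟩
    · exact prime_om'
    · exact prime_om
  have hϖ2 : ϖ * ϖ' = 2 := by
    rcases hPl with ⟨rfl, rfl⟩ | ⟨rfl, rfl⟩
    · exact om_mul
    · rw [mul_comm]; exact om_mul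
  obtain ⟨v, hv, hm⟩ : ∃ v : OO, (v = 1 ∨ v = -1) ∧ m = v * (s7 * ∏ q ∈ S, q) := by
    rcases hcase with ⟨h1, -, -, -⟩ | ⟨h1, -, -, -⟩
    · exact ⟨-1, Or.inr rfl, by rw [h1]; ring⟩
    · exact ⟨1, Or.inl rfl, by rw [h1]; ring⟩
  -- the place `ϖ`
  obtain ⟨p, hpf, ι, hι⟩ := exists_emb hi hϖp
  have hp2 : p = 2 := by
    rw [ι_em] at hι
    exact (two_of_dvd hϖp (iw hi ι) hι).2 ⟨_, hϖ2.symm⟩
  subst hp2
  have hι' : ‖em (iw hi ι) ϖ‖ < 1 := by rwa [ι_em] at hι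
  -- the place `ϖ'`
  obtain ⟨p, hpf', ι₁, hι₁⟩ := exists_emb hi hϖp'
  have hp2 : p = 2 := by
    rw [ι_em] at hι₁
    exact (two_of_dvd hϖp' (iw hi ι₁) hι₁).2 ⟨_, by rw [mul_comm]; exact hϖ2.symm⟩
  subst hp2
  have hι₁' : ‖em (iw hi ι₁) ϖ'‖ < 1 := by rwa [ι_em] at hι₁
  obtain ⟨s, hδ, hs, hk⟩ := hδK
  have hfr : ¬ ϖ' ∣ δ := hFRE hi hPl c8 ι₁ hι₁' (hm6 ι₁ hι₁') c hc hint δ s hδ hs hk
  have hst2 : ‖em (iw hi ι) δ - 1‖ ≤ 1 / 4 := by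
    rcases hm5 ι hι' with h | h
    · rcases hFR8 hi hPl cd ι hι' h c hc hint δ s hδ hs hk with h1 | ⟨δ', h1, -⟩
      · exact h1
      · exact absurd ⟨-δ', by rw [h1]; ring⟩ hnd
    · rcases hFRG hi hPl cd ι hι' h c hc hint δ s hδ hs hk with h1 | ⟨δ', h1, -⟩
      · exact h1
      · exact absurd ⟨δ', h1⟩ hnd
  -- the prime divisors of `δ`
  have hsup : ∀ π : OO, Prime π → π ∣ δ → ¬ π ∣ 2 → π ∣ m := by
    intro π hπ hπδ hπ2
    by_contra hπm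
    obtain ⟨l, hl, κ, hκ⟩ := exists_emb hi hπ
    rw [ι_em] at hκ
    have hl2 : l ≠ 2 := fun h => hπ2 ((two_of_dvd hπ (iw hi κ) hκ).1 h)
    have h1 := unram hi cd hl2 (hodd l κ hl2) ((dvd_iff (iw hi κ) hπ hκ m).not.1 hπm)
    refine not_dvd_of_fix (iw hi κ) hπ hκ hδ (s := κ s) ?_ ?_ hπδ
    · rw [← map_pow, hs, ι_em]
    · intro τ hin hτ
      exact fix_I (fun σ hσ => (hk σ).2 (h1 σ hσ)) τ hin hτ
  -- the prime divisors of `m`
  have hloc := loc_all hi cd hS hv hm hc hint hodd hδ hs hk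
  -- modulo four
  have h4a : (ϖ = om ∧ w4 = 2) ∨ (ϖ = 1 - om ∧ w4 = 3) := by
    rcases hcase with ⟨-, h1, -, h2⟩ | ⟨-, h1, -, h2⟩
    · exact Or.inl ⟨h1, h2⟩
    · exact Or.inr ⟨h1, h2⟩
  have hδ4 : em hw4 δ = 1 := em_four_one (iw hi ι) hw4 h4a hι' hst2
  exact hALG hREC S hS m ϖ ϖ' δ w4 hw4 hcase hδ hnd hfr hδ4 hsup hloc

/-- half of an integral cocycle with `δ = 1` or `δ = m` is integral, up to a coboundary -/
theorem half_of (cd : ChiD hi χ m r) {c : GK i₀ → ℚ_[2]} (hint : ∀ σ, ‖c σ‖ ≤ 1) {δ : OO}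
    (hδK : Kum hi c δ) (h : δ = 1 ∨ δ = m) :
    ∃ y : ℚ_[2], ∀ σ, ‖(c σ + (vl χ σ - 1) * y) / 2‖ ≤ 1 := by
  obtain ⟨s, hδ, hs, hk⟩ := hδK
  have h2n : ‖(2 : ℚ_[2])‖ = 1 / 2 := norm_two'
  have half : ∀ z : ℚ_[2], ‖z‖ < 1 → ‖z / 2‖ ≤ 1 := by
    intro z hz
    have := norm_lt_one hz
    rw [norm_div, h2n]
    linarith
  rcases h with h | h
  · -- `δ = 1`
    refine ⟨0, fun σ => ?_⟩
    rw [mul_zero, add_zero]
    apply half
    rw [h, map_one] at hs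
    have h1 : σ s = s := by
      rcases sq_eq_one_iff.1 hs with h2 | h2
      · rw [h2, map_one]
      · rw [h2, map_neg, map_one]
    exact md_zero.1 ((hk σ).1 h1)
  · -- `δ = m`
    rw [h] at hs
    have hsr : ∀ σ : GK i₀, σ s = s ↔ σ r = r := by
      intro σ
      have h1 : s ^ 2 = r ^ 2 := by rw [hs, cd.hr]
      rcases sq_eq_sq_iff_eq_or_eq_neg.1 h1 with h2 | h2
      · rw [h2]
      · rw [h2, map_neg, neg_inj]
    refine ⟨-(1 / 2), fun σ => half _ ?_⟩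
    have h3 : ‖(vl χ σ - 1) * (1 / 2)‖ = 2 * ‖vl χ σ - 1‖ := by
      rw [norm_mul, norm_div, norm_one, h2n]
      ring
    by_cases h4 : md c σ = 0
    · have h5 : ‖c σ‖ < 1 := md_zero.1 h4
      have h6 := (cd.iff hi σ).2 ((hsr σ).1 ((hk σ).2 h4))
      have e : c σ + (vl χ σ - 1) * -(1 / 2) = c σ + -((vl χ σ - 1) * (1 / 2)) := by ring
      rw [e]
      refine add_lt' h5 ?_
      rw [norm_neg, h3]
      linarith
    · have h5 : ¬ ‖c σ‖ < 1 := fun h => h4 (md_zero.2 h)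
      have h6 := (md_eq (hint σ)).1 h5
      have h7 : σ r = -r := by
        rcases rt_or hi cd.hr σ with h7 | h7
        · exact absurd ((hk σ).1 ((hsr σ).2 h7)) h4
        · exact h7
      have h8 := cd.big hi h7
      have h9 : ¬ ‖(vl χ σ - 1) * (1 / 2)‖ < 1 := by
        rw [h3, h8]
        norm_num
      have h10 := (md_eq (by rw [h3, h8]; norm_num)).1 h9
      have e : c σ + (vl χ σ - 1) * -(1 / 2) = (c σ - 1) + -((vl χ σ - 1) * (1 / 2) - 1) := by ring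
      rw [e]
      exact add_lt' h6 (by rwa [norm_neg])

/-- the combination of the cocycles -/
noncomputable def cb {n : ℕ} (χ : GK i₀ →* ℤ_[2]ˣ) (c : Fin n → GK i₀ → ℚ_[2])
    (v : Fin n → ℚ_[2]) (y : ℚ_[2]) (σ : GK i₀) : ℚ_[2] := ∑ j, v j * c j σ + (vl χ σ - 1) * y

lemma cb_coc {n : ℕ} {c : Fin n → GK i₀ → ℚ_[2]} (hχ : Continuous χ) (hc : ∀ j, Coc χ (c j))
    (v : Fin n → ℚ_[2]) (y : ℚ_[2]) : Coc χ (cb χ c v y) := by
  refine ⟨?_, fun σ τ => ?_⟩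
  · have h1 := cont_vl hχ
    have h2 := fun j => (hc j).cont
    unfold cb
    fun_prop
  · unfold cb
    simp only [(hc _).mul, vl_mul, mul_add, Finset.sum_add_distrib]
    have e : ∑ j, v j * (vl χ σ * c j τ) = vl χ σ * ∑ j, v j * c j τ := by
      rw [Finset.mul_sum]
      exact Finset.sum_congr rfl fun j _ => by ring
    rw [e]
    ring

lemma cb_cob {n : ℕ} {c : Fin n → GK i₀ → ℚ_[2]} {D : Set (GK i₀)} (h : ∀ j, CobOn χ D (c j))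
    (v : Fin n → ℚ_[2]) (y : ℚ_[2]) : CobOn χ D (cb χ c v y) := by
  choose z hz using h
  refine ⟨∑ j, v j * z j + y, fun σ hσ => ?_⟩
  unfold cb
  rw [mul_add, Finset.mul_sum]
  congr 1
  exact Finset.sum_congr rfl fun j _ => by rw [hz j σ hσ]; ring

lemma cb_add {n : ℕ} (c : Fin n → GK i₀ → ℚ_[2]) (v w : Fin n → ℚ_[2]) (y z : ℚ_[2]) :
    cb χ c (v + w) (y + z) = fun σ => cb χ c v y σ + cb χ c w z σ := by
  funext σ
  unfold cb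
  simp only [Pi.add_apply, add_mul, Finset.sum_add_distrib]
  ring

lemma cb_smul {n : ℕ} (c : Fin n → GK i₀ → ℚ_[2]) (a : ℚ_[2]) (v : Fin n → ℚ_[2]) (y : ℚ_[2])
    (σ : GK i₀) : cb χ c (a • v) (a * y) σ = a * cb χ c v y σ := by
  unfold cb
  simp only [Pi.smul_apply, smul_eq_mul, mul_assoc]
  rw [← Finset.mul_sum]
  ring

/-- the continuous functions defined by the combinations, as a linear map -/
noncomputable def cbL {n : ℕ} {c : Fin n → GK i₀ → ℚ_[2]} (hχ : Continuous χ)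
    (hc : ∀ j, Coc χ (c j)) : ((Fin n → ℚ_[2]) × ℚ_[2]) →ₗ[ℚ_[2]] C(GK i₀, ℚ_[2]) where
  toFun p := ⟨cb χ c p.1 p.2, (cb_coc hχ hc p.1 p.2).cont⟩
  map_add' p q := by
    ext σ
    exact congrFun (cb_add c p.1 q.1 p.2 q.2) σ
  map_smul' a p := by
    ext σ
    exact cb_smul c a p.1 p.2 σ

/-- **At most one class.** -/
theorem dim_core (hFR8 : S_FRE8) (hFRG : S_FREG) (hFRE : S_FRE) (hALG : S_ALG) (hREC : S_REC)
    {S : Finset OO} (hS : GoodS S) {ϖ ϖ' : OO} (c8 : C8 hi χ m r ϖ') {w4 : ZMod 4}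
    (hw4 : w4 ^ 2 = w4 - 2)
    (hcase : (m = -(s7 * ∏ q ∈ S, q) ∧ ϖ = om ∧ ϖ' = 1 - om ∧ w4 = 2) ∨
      (m = s7 * ∏ q ∈ S, q ∧ ϖ = 1 - om ∧ ϖ' = om ∧ w4 = 3))
    (hm5 : ∀ ι : QB →ₐ[ℚ] PadicAlgCl 2, ‖em (iw hi ι) ϖ‖ < 1 → M15 (em (iw hi ι) m))
    (hm6 : ∀ ι : QB →ₐ[ℚ] PadicAlgCl 2, ‖em (iw hi ι) ϖ'‖ < 1 → M15 (em (iw hi ι) (-m)))
    {c : Fin (1 + 1) → GK i₀ → ℚ_[2]} (hc : ∀ j, Coc χ (c j))
    (hodd : ∀ j (p : ℕ) [Fact p.Prime] (ι : QB →ₐ[ℚ] PadicAlgCl p), p ≠ 2 →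
      CobOn χ (II ι) (c j)) :
    ∃ l : Fin (1 + 1) → ℚ_[2], l ≠ 0 ∧ ∃ y : ℚ_[2], ∀ σ, ∑ j, l j * c j σ = (vl χ σ - 1) * y := by
  by_contra hn
  push Not at hn
  have cd := c8.cd
  have hχ := cd.cont
  have hϖ : ϖ = om ∨ ϖ = 1 - om := by
    rcases hcase with ⟨-, h1, -, -⟩ | ⟨-, h1, -, -⟩
    · exact Or.inl h1
    · exact Or.inr h1
  have hϖp : Prime ϖ := by
    rcases hϖ with rfl | rfl
    · exact prime_om
    · exact prime_om'
  obtain ⟨p, hpf, ι, hι⟩ := exists_emb hi hϖp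
  have hp2 : p = 2 := by
    rw [ι_em] at hι
    refine (two_of_dvd hϖp (iw hi ι) hι).2 ?_
    rcases hϖ with rfl | rfl
    · exact ⟨_, om_mul.symm⟩
    · exact ⟨_, by rw [mul_comm]; exact om_mul.symm⟩
  subst hp2
  have hι' : ‖em (iw hi ι) ϖ‖ < 1 := by rwa [ι_em] at hι
  -- an element that moves `r`
  obtain ⟨σ₀, hσ₀⟩ : ∃ σ₀ : GK i₀, σ₀ r = -r := by
    obtain ⟨v, hv, hm⟩ : ∃ v : OO, (v = 1 ∨ v = -1) ∧ m = v * (s7 * ∏ q ∈ S, q) := by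
      rcases hcase with ⟨h1, -, -, -⟩ | ⟨h1, -, -, -⟩
      · exact ⟨-1, Or.inr rfl, by rw [h1]; ring⟩
      · exact ⟨1, Or.inl rfl, by rw [h1]; ring⟩
    have hv' : ∀ {π : OO}, Prime π → ¬ π ∣ v := by
      intro π hπ h
      rcases hv with h1 | h1
      · rw [h1] at h
        exact hπ.not_isUnit (isUnit_of_dvd_one h)
      · rw [h1, dvd_neg] at h
        exact hπ.not_isUnit (isUnit_of_dvd_one h)
    obtain ⟨l, hl, κ, hκ⟩ := exists_emb hi prime_s7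
    rw [ι_em] at hκ
    have hns : ¬ s7 ∣ v * ∏ q ∈ S, q := by
      intro h
      rcases prime_s7.dvd_or_dvd h with h1 | h1
      · exact hv' prime_s7 h1
      · obtain ⟨j, hj, h2⟩ := (prime_s7.dvd_finsetProd_iff _).1 h1
        exact (hS.pp j hj).sev h2
    obtain ⟨σ₀, -, h⟩ := exists_ram hi cd prime_s7 (m1 := v * ∏ q ∈ S, q) (by rw [hm]; ring)
      hns hκ
    exact ⟨σ₀, h⟩
  have hbig := cd.big hi hσ₀
  have hne0 : vl χ σ₀ - 1 ≠ 0 := by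
    intro h
    rw [h, norm_zero] at hbig
    norm_num at hbig
  -- injectivity
  have hker : LinearMap.ker (cbL hχ hc) = ⊥ := by
    rw [LinearMap.ker_eq_bot']
    rintro ⟨v, y⟩ h
    have h1 : ∀ σ, cb χ c v y σ = 0 := fun σ => DFunLike.congr_fun h σ
    have hv : v = 0 := by
      by_contra hv
      obtain ⟨σ, hσ⟩ := hn v hv (-y)
      apply hσ
      have h2 := h1 σ
      unfold cb at h2
      linear_combination h2
    subst hv
    have h2 := h1 σ₀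
    unfold cb at h2
    simp only [Pi.zero_apply, zero_mul, Finset.sum_const_zero, zero_add] at h2
    rw [(mul_eq_zero.1 h2).resolve_left hne0]
    rfl
  obtain ⟨C, hC0, hC⟩ := (cbL hχ hc).exists_antilipschitzWith hker
  let Λ : AddSubgroup (Fin (1 + 1) → ℚ_[2]) :=
    { carrier := {v | ∃ y : ℚ_[2], ∀ σ, ‖cb χ c v y σ‖ ≤ 1}
      zero_mem' := ⟨0, fun σ => by
        unfold cb
        simp⟩
      add_mem' := by
        rintro v w ⟨y, hy⟩ ⟨z, hz⟩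
        refine ⟨y + z, fun σ => ?_⟩
        rw [cb_add]
        exact add_le' (hy σ) (hz σ)
      neg_mem' := by
        rintro v ⟨y, hy⟩
        refine ⟨-1 * y, fun σ => ?_⟩
        rw [← neg_one_smul ℚ_[2], cb_smul, neg_one_mul, norm_neg]
        exact hy σ }
  have hmem : ∀ v, v ∈ Λ ↔ ∃ y : ℚ_[2], ∀ σ, ‖cb χ c v y σ‖ ≤ 1 := fun v => Iff.rfl
  have hoddc := fun (v : Fin (1 + 1) → ℚ_[2]) (y : ℚ_[2]) (p : ℕ) (_ : Fact p.Prime)
    (ι : QB →ₐ[ℚ] PadicAlgCl p) (hp : p ≠ 2) => cb_cob (fun j => hodd j p ι hp) v y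
  refine Pool.Agent.K3h87.DM.latt_core 1 Λ ?_ ?_ ?_
    (fun _ => {v | ∃ (y : ℚ_[2]) (δ : OO), (∀ σ, ‖cb χ c v y σ‖ ≤ 1) ∧
      Kum hi (cb χ c v y) δ ∧ ¬ ϖ ∣ δ}) ?_ ?_ ?_ ?_
  · rintro a v ⟨y, hy⟩
    refine ⟨(a : ℚ_[2]) * y, fun σ => ?_⟩
    rw [cb_smul, norm_mul]
    exact mul_le_one₀ (PadicInt.norm_le_one a) (norm_nonneg _) (hy σ)
  · intro v
    have hcont := (cb_coc hχ hc v 0).cont
    obtain ⟨B, hB⟩ := (isCompact_range hcont).isBounded.exists_norm_le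
    obtain ⟨k, hk⟩ := pow_unbounded_of_one_lt B (one_lt_two (α := ℝ))
    refine ⟨k, 2 ^ k * 0, fun σ => ?_⟩
    rw [cb_smul, norm_mul, norm_pow, norm_two', one_div, inv_pow, inv_mul_le_iff₀ (by positivity),
      mul_one]
    exact (hB _ (Set.mem_range_self σ)).trans hk.le
  · refine ⟨C, ?_⟩
    rintro v ⟨y, hy⟩
    have h1 := hC.le_mul_dist (v, y) 0
    rw [dist_zero_right, map_zero, dist_zero_right] at h1
    have h2 : ‖cbL hχ hc (v, y)‖ ≤ 1 := (ContinuousMap.norm_le _ zero_le_one).2 hy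
    calc ‖v‖ ≤ ‖(v, y)‖ := norm_fst_le (v, y)
      _ ≤ C * ‖cbL hχ hc (v, y)‖ := h1
      _ ≤ C * 1 := mul_le_mul_of_nonneg_left h2 C.2
      _ = C := mul_one _
  · rintro - v ⟨y, hy⟩ w ⟨z, hz⟩
    obtain ⟨δ, hδ⟩ := exists_kum hi (cb_coc hχ hc v y) hy
    obtain ⟨δ', hδ'⟩ := exists_kum hi (cb_coc hχ hc w z) hz
    have hyz : ∀ σ, ‖cb χ c (v + w) (y + z) σ‖ ≤ 1 := fun σ => by
      rw [cb_add]
      exact add_le' (hy σ) (hz σ)
    obtain ⟨δ'', hδ''⟩ := exists_kum hi (cb_coc hχ hc (v + w) (y + z)) hyz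
    by_cases h1 : ϖ ∣ δ
    · by_cases h2 : ϖ ∣ δ'
      · refine Or.inr (Or.inr ⟨y + z, δ'', hyz, hδ'', ?_⟩)
        refine (parity hi hϖ hι' (fun σ => ?_) hδ hδ' hδ'').1 h1 h2
        rw [cb_add]
        exact md_add hy hz σ
      · exact Or.inr (Or.inl ⟨z, δ', hz, hδ', h2⟩)
    · exact Or.inl ⟨y, δ, hy, hδ, h1⟩
  · rintro - v - w - ⟨y, δ, hy, hδ, h1⟩ ⟨z, δ', hz, hδ', h2⟩
    have hyz : ∀ σ, ‖cb χ c (v + w) (y + z) σ‖ ≤ 1 := fun σ => by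
      rw [cb_add]
      exact add_le' (hy σ) (hz σ)
    obtain ⟨δ'', hδ''⟩ := exists_kum hi (cb_coc hχ hc (v + w) (y + z)) hyz
    refine ⟨y + z, δ'', hyz, hδ'', ?_⟩
    refine (parity hi hϖ hι' (fun σ => ?_) hδ hδ' hδ'').2 h1 h2
    rw [cb_add]
    exact md_add hy hz σ
  · rintro - v - ⟨y, δ, hy, ⟨s, hδ, hs, hk⟩, h1⟩
    have e : ∀ σ, cb χ c (-v) (-1 * y) σ = -cb χ c v y σ := fun σ => by
      rw [← neg_one_smul ℚ_[2], cb_smul, neg_one_mul]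
    refine ⟨-1 * y, δ, fun σ => ?_, ⟨s, hδ, hs, fun σ => ?_⟩, h1⟩
    · rw [e, norm_neg]
      exact hy σ
    · rw [hk σ]
      have e2 : cb χ c (-v) (-1 * y) = fun σ => -cb χ c v y σ := funext e
      rw [e2, md_neg]
  · rintro v - h
    obtain ⟨y, δ, hy, hδ, h1⟩ := h 0
    have h2 := delta_of hi hFR8 hFRG hFRE hALG hREC hS c8 hw4 hcase hm5 hm6
      (cb_coc hχ hc v y) hy (fun p hp ι hp2 => hoddc v y p hp ι hp2) hδ h1
    obtain ⟨z, hz⟩ := half_of hi cd hy hδ h2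
    refine ⟨(1 / 2) * (y + z), fun σ => ?_⟩
    rw [cb_smul]
    have e : (1 / 2 : ℚ_[2]) * cb χ c v (y + z) σ = (cb χ c v y σ + (vl χ σ - 1) * z) / 2 := by
      unfold cb
      ring
    rw [e]
    exact hz σ

open Pool.Agent.H519.Q7 (rec_BK)

/-- **At most one class**, for the characters `κ ^ a κ' ^ b`. -/
theorem dim_ab {κ κ' : GK i₀ →* ℤ_[2]ˣ} {S : Finset OO} {r I : QB} (hS : GoodS S)
    (kd : KD hi κ κ' (-(s7 * ∏ q ∈ S, q)) r I) (k8 : K8 κ κ') {a b : ℤ} (hab : Odd (a + b))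
    {c : Fin (1 + 1) → GK i₀ → ℚ_[2]} (hc : ∀ j, Coc (κ ^ a * κ' ^ b) (c j))
    (hodd : ∀ j (p : ℕ) [Fact p.Prime] (ι : QB →ₐ[ℚ] PadicAlgCl p), p ≠ 2 →
      CobOn (κ ^ a * κ' ^ b) (II ι) (c j)) :
    ∃ l : Fin (1 + 1) → ℚ_[2], l ≠ 0 ∧ ∃ y : ℚ_[2], ∀ σ,
      ∑ j, l j * c j σ = (vl (κ ^ a * κ' ^ b) σ - 1) * y := by
  obtain ⟨he, ho⟩ := c8_ab hi kd k8 a b
  rcases Int.even_or_odd a with ha | ha
  · have hb : Odd b := by
      obtain ⟨k, hk⟩ := ha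
      obtain ⟨l, hl⟩ := hab
      exact ⟨l - k, by omega⟩
    obtain ⟨s, c8⟩ := he ha hb
    refine dim_core hi (Pool.Agent.NH57.BG.t_FREB8 (Pool.Agent.NH57.BG.t_FREA8 t_H90
      Pool.Agent.NH57.BG.t_VAL8)) (Pool.Agent.NH57.BH.t_FREBG (Pool.Agent.NH57.BH.t_FREAG t_H90
      Pool.Agent.NH57.BH.t_VALG)) (t_FREB (t_FREA t_H90 t_VAL)) t_ALG rec_BK hS c8
      (w4 := 2) (by decide)
      (Or.inl ⟨rfl, rfl, rfl, rfl⟩) (fun ι hι => (t_MOD hi ι _ hS.one).1 hι) (fun ι hι => ?_)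
      hc hodd
    rw [neg_neg]
    exact (t_MOD hi ι _ hS.one).2 hι
  · have hb : Even b := by
      obtain ⟨k, hk⟩ := ha
      obtain ⟨l, hl⟩ := hab
      exact ⟨l - k, by omega⟩
    obtain ⟨s, c8⟩ := ho ha hb
    rw [neg_neg] at c8
    exact dim_core hi (Pool.Agent.NH57.BG.t_FREB8 (Pool.Agent.NH57.BG.t_FREA8 t_H90
      Pool.Agent.NH57.BG.t_VAL8)) (Pool.Agent.NH57.BH.t_FREBG (Pool.Agent.NH57.BH.t_FREAG t_H90
      Pool.Agent.NH57.BH.t_VALG)) (t_FREB (t_FREA t_H90 t_VAL)) t_ALG rec_BK hS c8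
      (w4 := 3) (by decide)
      (Or.inr ⟨rfl, rfl, rfl, rfl⟩) (fun ι hι => (t_MOD hi ι _ hS.one).2 hι)
      (fun ι hι => (t_MOD hi ι _ hS.one).1 hι) hc hodd

end Pool.Agent.H519.G2
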