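import Mathlib

/-!
# Project G2: dimensions modulo a subspace
-/

set_option autoImplicit false

namespace Pool.Agent.H519.G2

variable {F E E₁ E₂ : Type*} [Field F] [AddCommGroup E] [Module F E] [AddCommGroup E₁] [Module F E₁]
  [AddCommGroup E₂] [Module F E₂]

/-- every `f + 1` elements of `W` satisfy a nontrivial linear relation modulo `N` -/
def DimM (W N : Submodule F E) (f : ℕ) : Prop :=
  ∀ c : Fin (f + 1) → E, (∀ j, c j ∈ W) → ∃ l : Fin (f + 1) → F, l ≠ 0 ∧ ∑ j, l j • c j ∈ N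

/-- the codimension of the relations -/
lemma codim {W N : Submodule F E} {f : ℕ} (h : DimM W N f) {k : ℕ} (c : Fin k → E)
    (hc : ∀ j, c j ∈ W) : ∃ R : Submodule F (Fin k → F), (∀ l, l ∈ R ↔ ∑ j, l j • c j ∈ N) ∧
      k ≤ f + Module.finrank F R := by
  let Φ : (Fin k → F) →ₗ[F] E := Fintype.linearCombination F c
  have hΦ : ∀ l, Φ l = ∑ j, l j • c j := fun l => rfl
  refine ⟨N.comap Φ, fun l => Iff.rfl, ?_⟩
  set R := N.comap Φ with hR
  have h1 : Module.finrank F ((Fin k → F) ⧸ R) + Module.finrank F R = k := by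
    rw [Submodule.finrank_quotient_add_finrank, Module.finrank_fin_fun]
  by_contra hcon
  push Not at hcon
  have h2 : f + 1 ≤ Module.finrank F ((Fin k → F) ⧸ R) := by omega
  obtain ⟨v, hv⟩ := exists_linearIndependent_of_le_finrank h2
  choose u hu using fun i => Submodule.mkQ_surjective R (v i)
  obtain ⟨l, hl0, hl⟩ := h (fun i => Φ (u i)) (fun i => by
    rw [hΦ]
    exact Submodule.sum_mem _ fun j _ => Submodule.smul_mem _ _ (hc j))
  apply hl0
  have h3 : ∑ i, l i • u i ∈ R := by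
    show Φ (∑ i, l i • u i) ∈ N
    rw [map_sum]
    simp only [map_smul]
    exact hl
  have h4 : ∑ i, l i • v i = 0 := by
    have h5 : ∑ i, l i • v i = R.mkQ (∑ i, l i • u i) := by
      rw [map_sum]
      refine Finset.sum_congr rfl fun i _ => ?_
      rw [map_smul, hu]
    rw [h5]
    exact (Submodule.Quotient.mk_eq_zero R).2 h3
  funext i
  exact Fintype.linearIndependent_iff.1 hv l h4 i

/-- two maps with small targets and trivial common kernel -/
theorem DimM.add {W N : Submodule F E} {W₁ N₁ : Submodule F E₁} {W₂ N₂ : Submodule F E₂} {f g : ℕ}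
    (h₁ : DimM W₁ N₁ f) (h₂ : DimM W₂ N₂ g) (A : E →ₗ[F] E₁) (B : E →ₗ[F] E₂)
    (hA : ∀ x ∈ W, A x ∈ W₁) (hB : ∀ x ∈ W, B x ∈ W₂)
    (hk : ∀ x ∈ W, A x ∈ N₁ → B x ∈ N₂ → x ∈ N) : DimM W N (f + g) := by
  intro c hc
  obtain ⟨R₁, h1, h2⟩ := codim h₁ (fun j => A (c j)) fun j => hA _ (hc j)
  obtain ⟨R₂, h3, h4⟩ := codim h₂ (fun j => B (c j)) fun j => hB _ (hc j)
  have h5 := Submodule.finrank_sup_add_finrank_inf_eq R₁ R₂
  have h6 : Module.finrank F (R₁ ⊔ R₂ : Submodule F (Fin (f + g + 1) → F)) ≤ f + g + 1 := by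
    have := Submodule.finrank_le (R₁ ⊔ R₂)
    rwa [Module.finrank_fin_fun] at this
  have h7 : 0 < Module.finrank F (R₁ ⊓ R₂ : Submodule F (Fin (f + g + 1) → F)) := by omega
  have h8 : Nontrivial (R₁ ⊓ R₂ : Submodule F (Fin (f + g + 1) → F)) :=
    Module.nontrivial_of_finrank_pos h7
  obtain ⟨⟨l, hl⟩, hne⟩ := exists_ne (0 : (R₁ ⊓ R₂ : Submodule F (Fin (f + g + 1) → F)))
  refine ⟨l, fun h => hne (Subtype.ext h), ?_⟩
  obtain ⟨hl1, hl2⟩ := Submodule.mem_inf.1 hl
  refine hk _ (Submodule.sum_mem _ fun j _ => Submodule.smul_mem _ _ (hc j)) ?_ ?_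
  · rw [map_sum]
    simp only [map_smul]
    exact (h1 l).1 hl1
  · rw [map_sum]
    simp only [map_smul]
    exact (h3 l).1 hl2

/-- monotone in the dimension -/
theorem DimM.mono {W N : Submodule F E} {f g : ℕ} (h : DimM W N f) (hfg : f ≤ g) : DimM W N g := by
  intro c hc
  obtain ⟨R, h1, h2⟩ := codim h c hc
  have h7 : 0 < Module.finrank F R := by omega
  have h8 : Nontrivial R := Module.nontrivial_of_finrank_pos h7
  obtain ⟨⟨l, hl⟩, hne⟩ := exists_ne (0 : R)
  exact ⟨l, fun h => hne (Subtype.ext h), (h1 l).1 hl⟩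

end Pool.Agent.H519.G2
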