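import Pool.Agent.H519.G2.Lin
import Pool.Agent.H519.G2.Dim

/-!
# Project G2: multiquadratic fields
-/

set_option autoImplicit false
set_option linter.unusedSectionVars false

namespace Pool.Agent.H519.G2

open Pool.Agent.R384
open Pool.Agent.NH57.BK (GoodS K8)
open Pool.Agent.NH57.BH (GoodX)
open Pool.Agent.NH57.BK.Mq78 (k8_tw prod_pm)
open Pool.Agent.Y715.Red Pool.Agent.Y715.Nr Pool.Agent.W237.RK
open Pool.Agent.Y715.Gi (QB KK GK)
open Pool.Agent.Y715.Df (Cmp)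

section cor

variable {G : Type} [Group G] [TopologicalSpace G]

/-- the corestriction as a linear map -/
noncomputable def corL (χ : G →* ℤ_[2]ˣ) (ε : G →* ℤˣ) (t : G) :
    (G → ℚ_[2]) →ₗ[ℚ_[2]] (G → ℚ_[2]) where
  toFun := cor χ ε t
  map_add' c d := by
    funext g
    unfold cor
    simp only [Pi.add_apply]
    split_ifs <;> ring
  map_smul' a c := by
    funext g
    unfold cor
    simp only [Pi.smul_apply, smul_eq_mul, RingHom.id_apply]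
    split_ifs <;> ring

/-- the coboundaries on `H` -/
def NN (χ : G →* ℤ_[2]ˣ) (H : Subgroup G) : Submodule ℚ_[2] (G → ℚ_[2]) where
  carrier := {c | ∃ y : ℚ_[2], ∀ σ ∈ H, c σ = (vl χ σ - 1) * y}
  zero_mem' := ⟨0, fun σ _ => by simp⟩
  add_mem' := by
    rintro c d ⟨y, hy⟩ ⟨z, hz⟩
    exact ⟨y + z, fun σ hσ => by rw [Pi.add_apply, hy σ hσ, hz σ hσ]; ring⟩
  smul_mem' := by
    rintro a c ⟨y, hy⟩
    exact ⟨a * y, fun σ hσ => by rw [Pi.smul_apply, smul_eq_mul, hy σ hσ]; ring⟩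

end cor

variable {i₀ : QB} (hi : i₀ ^ 2 = i₀ - 2)

/-- the cocycles on `H` that are unramified outside two -/
def WW (χ : GK i₀ →* ℤ_[2]ˣ) (H : Subgroup (GK i₀)) : Submodule ℚ_[2] (GK i₀ → ℚ_[2]) where
  carrier := {c | CocOn χ H c ∧ ∀ (p : ℕ) [Fact p.Prime] (ι : QB →ₐ[ℚ] PadicAlgCl p), p ≠ 2 →
    ∃ y : ℚ_[2], ∀ σ ∈ II ι, σ ∈ H → c σ = (vl χ σ - 1) * y}
  zero_mem' := ⟨⟨continuousOn_const, fun σ _ τ _ => by simp⟩, fun p _ ι _ => ⟨0, fun σ _ _ => by simp⟩⟩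
  add_mem' := by
    rintro c d ⟨⟨h1, h2⟩, h3⟩ ⟨⟨h4, h5⟩, h6⟩
    refine ⟨⟨h1.add h4, fun σ hσ τ hτ => ?_⟩, fun p _ ι hp => ?_⟩
    · rw [Pi.add_apply, Pi.add_apply, Pi.add_apply, h2 σ hσ τ hτ, h5 σ hσ τ hτ]
      ring
    · obtain ⟨y, hy⟩ := h3 p ι hp
      obtain ⟨z, hz⟩ := h6 p ι hp
      exact ⟨y + z, fun σ hσ hH => by rw [Pi.add_apply, hy σ hσ hH, hz σ hσ hH]; ring⟩
  smul_mem' := by
    rintro a c ⟨⟨h1, h2⟩, h3⟩
    refine ⟨⟨h1.const_smul a, fun σ hσ τ hτ => ?_⟩, fun p _ ι hp => ?_⟩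
    · rw [Pi.smul_apply, Pi.smul_apply, Pi.smul_apply, h2 σ hσ τ hτ, smul_eq_mul, smul_eq_mul,
        smul_eq_mul]
      ring
    · obtain ⟨y, hy⟩ := h3 p ι hp
      exact ⟨a * y, fun σ hσ hH => by rw [Pi.smul_apply, smul_eq_mul, hy σ hσ hH]; ring⟩

/-- the classes over the field fixed by `H` that are unramified outside two generate a space of dimension
at most `f` -/
def DimOn (χ : GK i₀ →* ℤ_[2]ˣ) (H : Subgroup (GK i₀)) (f : ℕ) : Prop := DimM (WW χ H) (NN χ H) f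

/-- **The step.** -/
theorem DimOn.step {χ : GK i₀ →* ℤ_[2]ˣ} {ε : GK i₀ →* ℤˣ} {G' : Subgroup (GK i₀)} {f g : ℕ}
    (hop : ∀ u : ℤˣ, IsOpen {g | ε g = u}) (h1 : DimOn χ G' f)
    (h2 : DimOn (χ * sgc ε) G' g) : DimOn χ (kr ε G') (f + g) := by
  by_cases hG : ∃ t ∈ G', ε t = -1
  · obtain ⟨t, ht, hε⟩ := hG
    refine DimM.add h1 h2 (corL χ ε t) (corL (χ * sgc ε) ε t) ?_ ?_ ?_
    · rintro c ⟨hc, hodd⟩
      refine ⟨⟨cor_cont ht hε hop hc.cont, fun σ hσ τ hτ => cor_mul ht hε hc.mul hσ hτ⟩,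
        fun p _ ι hp => ?_⟩
      obtain ⟨y, hy⟩ := hodd p ι hp
      obtain ⟨y', hy'⟩ := hodd p (cι ι t) hp
      exact cor_loc (I := IIs ι) ht hε hc.mul (fun σ h3 h4 => hy σ h3 h4) (fun σ h3 h4 => by
        rw [hy' _ (II_conj h3) (conj_kr ht hε h4), vl_conj])
    · rintro c ⟨hc, hodd⟩
      have hc' : ∀ σ ∈ kr ε G', ∀ τ ∈ kr ε G', c (σ * τ) = c σ + vl (χ * sgc ε) σ * c τ := by
        intro σ hσ τ hτ
        rw [vl_sgc_pos (mem_kr.1 hσ).2]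
        exact hc.mul σ hσ τ hτ
      refine ⟨⟨cor_cont ht hε hop hc.cont, fun σ hσ τ hτ => cor_mul ht hε hc' hσ hτ⟩,
        fun p _ ι hp => ?_⟩
      obtain ⟨y, hy⟩ := hodd p ι hp
      obtain ⟨y', hy'⟩ := hodd p (cι ι t) hp
      exact cor_loc (I := IIs ι) ht hε hc' (fun σ h3 h4 => by
        rw [vl_sgc_pos (mem_kr.1 h4).2]
        exact hy σ h3 h4) (fun σ h3 h4 => by
        rw [vl_sgc_pos (mem_kr.1 h4).2, hy' _ (II_conj h3) (conj_kr ht hε h4), vl_conj])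
    · rintro c - ⟨y₁, hy₁⟩ ⟨y₂, hy₂⟩
      refine ⟨(y₁ + y₂) / 2, fun σ hσ => ?_⟩
      obtain ⟨g1, g2⟩ := mem_kr.1 hσ
      have e1 : cor χ ε t c σ = _ := hy₁ σ g1
      have e2 : cor (χ * sgc ε) ε t c σ = _ := hy₂ σ g1
      unfold cor at e1 e2
      rw [if_pos g2] at e1 e2
      rw [vl_sgc_neg hε, vl_sgc_pos g2] at e2
      have h2 : (2 : ℚ_[2]) ≠ 0 := two_ne_zero
      field_simp
      linear_combination e1 + e2
  · push Not at hG
    have e : kr ε G' = G' := by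
      ext σ
      constructor
      · exact fun h => (mem_kr.1 h).1
      · intro h
        refine mem_kr.2 ⟨h, ?_⟩
        rcases Int.units_eq_one_or (ε σ) with h3 | h3
        · exact h3
        · exact absurd h3 (hG σ h)
    rw [e]
    exact DimM.mono h1 (Nat.le_add_right _ _)

variable {n : ℕ} {s : Fin n → QB} (hs0 : ∀ i, s i ≠ 0)
  (hs : ∀ (i) (σ : GK i₀), σ (s i) = s i ∨ σ (s i) = -s i)

open scoped Classical in
include hs0 hs in
theorem dim_all : ∀ (A : Finset (Fin n)) (χ : GK i₀ →* ℤ_[2]ˣ),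
    (∀ T ⊆ A, DimOn (χ * ∏ i ∈ T, sgc (es (hs0 i) (hs i))) ⊤ 1) →
      DimOn χ (fixs s A) (2 ^ A.card) := by
  intro A
  induction A using Finset.induction_on with
  | empty =>
    intro χ h
    have h1 := h ∅ (Finset.Subset.refl _)
    rw [Finset.prod_empty, mul_one] at h1
    have e : (fixs s ∅ : Subgroup (GK i₀)) = ⊤ := by
      ext σ
      exact ⟨fun _ => trivial, fun _ i hi' => absurd hi' (Finset.notMem_empty i)⟩
    rw [Finset.card_empty, pow_zero]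
    rwa [e]
  | insert i A hiA ih =>
    intro χ h
    have e : (fixs s (insert i A) : Subgroup (GK i₀)) = kr (es (hs0 i) (hs i)) (fixs s A) := by
      ext σ
      constructor
      · intro h1
        exact mem_kr.2 ⟨fun j hj => h1 j (Finset.mem_insert_of_mem hj),
          (es_one (hs0 i) (hs i)).2 (h1 i (Finset.mem_insert_self _ _))⟩
      · intro h1 j hj
        obtain ⟨h2, h3⟩ := mem_kr.1 h1
        rcases Finset.mem_insert.1 hj with rfl | hj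
        · exact (es_one (hs0 j) (hs j)).1 h3
        · exact h2 j hj
    rw [e, Finset.card_insert_of_notMem hiA, pow_succ, mul_two]
    refine DimOn.step (es_open (hs0 i) (hs i)) (ih χ fun T hT =>
      h T (hT.trans (Finset.subset_insert _ _))) (ih _ fun T hT => ?_)
    have h1 := h (insert i T) (Finset.insert_subset_insert _ hT)
    rw [Finset.prod_insert (fun h => hiA (hT h)), ← mul_assoc] at h1
    exact h1

variable {κ κ' : GK i₀ →* ℤ_[2]ˣ} {D : OO} {r I : QB} {E : Fin n → OO}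

/-- a character of order two absorbs into `κ ^ a κ' ^ b`, `a + b` odd -/
lemma ab_tw {a b : ℤ} (hab : Odd (a + b)) {S : GK i₀ →* ℤ_[2]ˣ} (hS : ∀ σ, S σ = 1 ∨ S σ = -1) :
    κ ^ a * κ' ^ b * S = (κ * S) ^ a * (κ' * S) ^ b := by
  refine MonoidHom.ext fun σ => ?_
  have h1 : (S σ) ^ (a + b) = S σ := by
    rcases hS σ with h | h
    · rw [h, one_zpow]
    · rw [h, hab.neg_one_zpow]
  show (κ σ) ^ a * (κ' σ) ^ b * S σ = (κ σ * S σ) ^ a * (κ' σ * S σ) ^ b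
  rw [mul_zpow, mul_zpow, mul_mul_mul_comm, ← zpow_add, h1]

/-- the vanishing over multiquadratic fields, good sets -/
theorem mq_ab (hE : ∀ i, s i ^ 2 = em hi (E i)) (kd : KD hi κ κ' D r I) (k8 : K8 κ κ') (hD : D ≠ 0)
    (hE0 : ∀ i, E i ≠ 0)
    (hgood : ∀ T : Finset (Fin n), ∃ (S : Finset OO) (z : OO), GoodS S ∧ z ≠ 0 ∧
      D * ∏ i ∈ T, E i = -(s7 * ∏ q ∈ S, q) * z ^ 2) {a b : ℤ} {ϖ : OO}
    (hϖ : (Even a ∧ Odd b ∧ ϖ = om) ∨ (Odd a ∧ Even b ∧ ϖ = 1 - om)) :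
    VanOn hi ϖ (κ ^ a * κ' ^ b) (fixs s Finset.univ) := by
  classical
  have hs0 : ∀ i, s i ≠ 0 := by
    intro i h
    have h1 := hE i
    rw [h, zero_pow two_ne_zero] at h1
    exact hE0 i (em_inj hi h1.symm)
  have hs : ∀ (i) (σ : GK i₀), σ (s i) = s i ∨ σ (s i) = -s i := fun i σ => rt_or hi (hE i) σ
  have hab : Odd (a + b) := by
    rcases hϖ with ⟨h1, h2, -⟩ | ⟨h1, h2, -⟩
    · exact h1.add_odd h2
    · exact h1.add_even h2
  refine van_all hi hs0 hs ϖ Finset.univ _ fun T _ => ?_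
  obtain ⟨S', z, hgS, hz, hprod⟩ := hgood T
  have kd1 := KD.twists hi hs0 hs hE kd hD hE0 T
  have hz0 : em hi z ≠ 0 := em_ne hi hz
  have kd2 := KD.resc hi kd1 (D' := -(s7 * ∏ q ∈ S', q)) (u := (em hi z)⁻¹) (inv_ne_zero hz0)
    (fun σ => by rw [map_inv₀, gk_em]) (by
      rw [mul_pow, kd1.hr, hprod, map_mul, map_pow]
      field_simp)
  have hpm := prod_pm (fun i => es (hs0 i) (hs i)) T
  have k82 : K8 (κ * ∏ i ∈ T, sgc (es (hs0 i) (hs i))) (κ' * ∏ i ∈ T, sgc (es (hs0 i) (hs i))) :=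
    k8_tw k8 hpm
  intro c hc hodd hstr
  rw [ab_tw hab hpm] at hc hodd hstr ⊢
  obtain ⟨y, hy⟩ := van_ab hi hgS kd2 k82 hϖ
    (c := c) ⟨by
      have := hc.cont
      rwa [Subgroup.coe_top, continuousOn_univ] at this, fun σ τ => hc.mul σ trivial τ trivial⟩
    (fun p _ ι hp => by
      obtain ⟨y, hy⟩ := hodd p ι hp
      exact ⟨y, fun σ hσ => hy σ hσ trivial⟩)
    (fun ι hι => by
      obtain ⟨y, hy⟩ := hstr ι hι
      exact ⟨y, fun σ hσ => hy σ hσ trivial⟩)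
  exact ⟨y, fun σ _ => hy σ⟩

/-- the vanishing over multiquadratic fields, very good sets -/
theorem mqg_ab (hE : ∀ i, s i ^ 2 = em hi (E i)) (kd : KD hi κ κ' D r I) (k8 : K8 κ κ') (hD : D ≠ 0)
    (hE0 : ∀ i, E i ≠ 0)
    (hgood : ∀ T : Finset (Fin n), ∃ (x y : ZMod 2) (S : Finset OO) (z : OO), GoodX x y S ∧ z ≠ 0 ∧
      D * ∏ i ∈ T, E i = -(s7 * ∏ q ∈ S, q) * z ^ 2) {a b : ℤ} {ϖ' : OO}
    (hϖ : (Even a ∧ Odd b ∧ ϖ' = 1 - om) ∨ (Odd a ∧ Even b ∧ ϖ' = om)) :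
    VanOn hi ϖ' (κ ^ a * κ' ^ b) (fixs s Finset.univ) := by
  classical
  have hs0 : ∀ i, s i ≠ 0 := by
    intro i h
    have h1 := hE i
    rw [h, zero_pow two_ne_zero] at h1
    exact hE0 i (em_inj hi h1.symm)
  have hs : ∀ (i) (σ : GK i₀), σ (s i) = s i ∨ σ (s i) = -s i := fun i σ => rt_or hi (hE i) σ
  have hab : Odd (a + b) := by
    rcases hϖ with ⟨h1, h2, -⟩ | ⟨h1, h2, -⟩
    · exact h1.add_odd h2
    · exact h1.add_even h2
  refine van_all hi hs0 hs ϖ' Finset.univ _ fun T _ => ?_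
  obtain ⟨x, y, S', z, hgS, hz, hprod⟩ := hgood T
  have kd1 := KD.twists hi hs0 hs hE kd hD hE0 T
  have hz0 : em hi z ≠ 0 := em_ne hi hz
  have kd2 := KD.resc hi kd1 (D' := -(s7 * ∏ q ∈ S', q)) (u := (em hi z)⁻¹) (inv_ne_zero hz0)
    (fun σ => by rw [map_inv₀, gk_em]) (by
      rw [mul_pow, kd1.hr, hprod, map_mul, map_pow]
      field_simp)
  have hpm := prod_pm (fun i => es (hs0 i) (hs i)) T
  have k82 : K8 (κ * ∏ i ∈ T, sgc (es (hs0 i) (hs i))) (κ' * ∏ i ∈ T, sgc (es (hs0 i) (hs i))) :=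
    k8_tw k8 hpm
  intro c hc hodd hstr
  rw [ab_tw hab hpm] at hc hodd hstr ⊢
  obtain ⟨y', hy⟩ := vang_ab hi hgS kd2 k82 hϖ
    (c := c) ⟨by
      have := hc.cont
      rwa [Subgroup.coe_top, continuousOn_univ] at this, fun σ τ => hc.mul σ trivial τ trivial⟩
    (fun p _ ι hp => by
      obtain ⟨y, hy⟩ := hodd p ι hp
      exact ⟨y, fun σ hσ => hy σ hσ trivial⟩)
    (fun ι hι => by
      obtain ⟨y, hy⟩ := hstr ι hι
      exact ⟨y, fun σ hσ => hy σ hσ trivial⟩)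
  exact ⟨y', fun σ _ => hy σ⟩

/-- the dimension over multiquadratic fields, good sets -/
theorem dimq_ab (hE : ∀ i, s i ^ 2 = em hi (E i)) (kd : KD hi κ κ' D r I) (k8 : K8 κ κ')
    (hD : D ≠ 0) (hE0 : ∀ i, E i ≠ 0)
    (hgood : ∀ T : Finset (Fin n), ∃ (S : Finset OO) (z : OO), GoodS S ∧ z ≠ 0 ∧
      D * ∏ i ∈ T, E i = -(s7 * ∏ q ∈ S, q) * z ^ 2) {a b : ℤ} (hab : Odd (a + b)) :
    DimOn (κ ^ a * κ' ^ b) (fixs s Finset.univ) (2 ^ n) := by
  classical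
  have hs0 : ∀ i, s i ≠ 0 := by
    intro i h
    have h1 := hE i
    rw [h, zero_pow two_ne_zero] at h1
    exact hE0 i (em_inj hi h1.symm)
  have hs : ∀ (i) (σ : GK i₀), σ (s i) = s i ∨ σ (s i) = -s i := fun i σ => rt_or hi (hE i) σ
  have key := dim_all hs0 hs Finset.univ (κ ^ a * κ' ^ b) fun T _ => ?_
  · rwa [Finset.card_univ, Fintype.card_fin] at key
  obtain ⟨S', z, hgS, hz, hprod⟩ := hgood T
  have kd1 := KD.twists hi hs0 hs hE kd hD hE0 T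
  have hz0 : em hi z ≠ 0 := em_ne hi hz
  have kd2 := KD.resc hi kd1 (D' := -(s7 * ∏ q ∈ S', q)) (u := (em hi z)⁻¹) (inv_ne_zero hz0)
    (fun σ => by rw [map_inv₀, gk_em]) (by
      rw [mul_pow, kd1.hr, hprod, map_mul, map_pow]
      field_simp)
  have hpm := prod_pm (fun i => es (hs0 i) (hs i)) T
  have k82 : K8 (κ * ∏ i ∈ T, sgc (es (hs0 i) (hs i))) (κ' * ∏ i ∈ T, sgc (es (hs0 i) (hs i))) :=
    k8_tw k8 hpm
  intro c hc
  rw [ab_tw hab hpm] at hc ⊢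
  obtain ⟨l, hl, y, hy⟩ := dim_ab hi hgS kd2 k82 hab (c := c) (fun j => ⟨by
      have := (hc j).1.cont
      rwa [Subgroup.coe_top, continuousOn_univ] at this,
      fun σ τ => (hc j).1.mul σ trivial τ trivial⟩)
    (fun j p _ ι hp => by
      obtain ⟨y, hy⟩ := (hc j).2 p ι hp
      exact ⟨y, fun σ hσ => hy σ hσ trivial⟩)
  refine ⟨l, hl, y, fun σ _ => ?_⟩
  rw [← hy σ, Finset.sum_apply]
  rfl

end Pool.Agent.H519.G2
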