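import Pool.Agent.H519.G2.Ab
import Pool.Agent.H519.KW.Van

/-!
# Project G2: the vanishing theorems over `K` for the characters `κ ^ a κ' ^ b`, `a + b` odd
-/

set_option autoImplicit false
set_option linter.unusedSectionVars false
set_option linter.unusedVariables false

namespace Pool.Agent.H519.G2

open Pool.Agent.R384
open Pool.Agent.NH57 (BK.GoodS BK.K8 BK.C8 BK.M15 BK.Mn.core BH.GoodX BH.MnG.core BH.MnG.m15_of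
  BK.t_FREB BK.t_FREA BK.t_H90 BK.t_VAL BK.t_ALG BK.t_MOD BK.t_STR BH.t_MODG BG.t_RED8 BH.t_STRG
  BG.t_FREB8 BG.t_FREA8 BG.t_VAL8 BH.t_FREBG BH.t_FREAG BH.t_VALG BH.t_ALGG BG.e3 BG.e6)
open Pool.Agent.Y676.IS (Cu)
open Pool.Agent.Y715.Red Pool.Agent.Y715.Nr Pool.Agent.W237.RK
open Pool.Agent.Y715.Gi (QB KK GK)
open Pool.Agent.Y715.Df (Cmp)
open Pool.Agent.H519.Q7 (rec_BK sup_BG)

open scoped Classical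

variable {i₀ : QB} (hi : i₀ ^ 2 = i₀ - 2) {κ κ' : GK i₀ →* ℤ_[2]ˣ} {S : Finset OO} {r I : QB}

/-- the good sets: the strict place is `ω` if `a` is even, and `1 - ω` if `a` is odd -/
theorem van_ab (hS : BK.GoodS S) (kd : KD hi κ κ' (-(s7 * ∏ q ∈ S, q)) r I) (k8 : BK.K8 κ κ')
    {a b : ℤ} {ϖ : OO} (hϖ : (Even a ∧ Odd b ∧ ϖ = om) ∨ (Odd a ∧ Even b ∧ ϖ = 1 - om))
    {c : GK i₀ → ℚ_[2]} (hc : Coc (κ ^ a * κ' ^ b) c)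
    (hodd : ∀ (p : ℕ) [Fact p.Prime] (ι : QB →ₐ[ℚ] PadicAlgCl p), p ≠ 2 →
      CobOn (κ ^ a * κ' ^ b) (II ι) c)
    (hstr : ∀ ι : QB →ₐ[ℚ] PadicAlgCl 2, ‖ι (em hi ϖ)‖ < 1 → CobOn (κ ^ a * κ' ^ b) (DD ι) c) :
    ∃ y : ℚ_[2], ∀ σ, c σ = (vl (κ ^ a * κ' ^ b) σ - 1) * y := by
  obtain ⟨he, ho⟩ := c8_ab hi kd k8 a b
  rcases hϖ with ⟨ha, hb, rfl⟩ | ⟨ha, hb, rfl⟩
  · obtain ⟨s, c8⟩ := he ha hb
    refine BK.Mn.core hi BK.t_STR (BK.t_FREB (BK.t_FREA BK.t_H90 BK.t_VAL)) BK.t_ALG rec_BK hS c8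
      (w4 := 2) (by decide)
      (Or.inl ⟨rfl, rfl, rfl, rfl⟩) (fun ι hι => (BK.t_MOD hi ι _ hS.one).1 hι) (fun ι hι => ?_)
      hc hodd hstr
    rw [neg_neg]
    exact (BK.t_MOD hi ι _ hS.one).2 hι
  · obtain ⟨s, c8⟩ := ho ha hb
    rw [neg_neg] at c8
    exact BK.Mn.core hi BK.t_STR (BK.t_FREB (BK.t_FREA BK.t_H90 BK.t_VAL)) BK.t_ALG rec_BK hS c8
      (w4 := 3) (by decide)
      (Or.inr ⟨rfl, rfl, rfl, rfl⟩) (fun ι hι => (BK.t_MOD hi ι _ hS.one).2 hι)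
      (fun ι hι => (BK.t_MOD hi ι _ hS.one).1 hι) hc hodd hstr

/-- the very good sets: the strict place is `1 - ω` if `a` is even, and `ω` if `a` is odd -/
theorem vang_ab {x y : ZMod 2} (hT : BH.GoodX x y S) (kd : KD hi κ κ' (-(s7 * ∏ q ∈ S, q)) r I)
    (k8 : BK.K8 κ κ')
    {a b : ℤ} {ϖ' : OO} (hϖ : (Even a ∧ Odd b ∧ ϖ' = 1 - om) ∨ (Odd a ∧ Even b ∧ ϖ' = om))
    {c : GK i₀ → ℚ_[2]} (hc : Coc (κ ^ a * κ' ^ b) c)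
    (hodd : ∀ (p : ℕ) [Fact p.Prime] (ι : QB →ₐ[ℚ] PadicAlgCl p), p ≠ 2 →
      CobOn (κ ^ a * κ' ^ b) (II ι) c)
    (hstr : ∀ ι : QB →ₐ[ℚ] PadicAlgCl 2, ‖ι (em hi ϖ')‖ < 1 → CobOn (κ ^ a * κ' ^ b) (DD ι) c) :
    ∃ y : ℚ_[2], ∀ σ, c σ = (vl (κ ^ a * κ' ^ b) σ - 1) * y := by
  obtain ⟨he, ho⟩ := c8_ab hi kd k8 a b
  have hM := fun ι : QB →ₐ[ℚ] PadicAlgCl 2 => BH.t_MODG hi ι _ x y hT.gs.one hT.six hT.three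
  rcases hϖ with ⟨ha, hb, rfl⟩ | ⟨ha, hb, rfl⟩
  · obtain ⟨s, c8⟩ := he ha hb
    refine BH.MnG.core hi BG.t_RED8 BH.t_STRG (BG.t_FREB8 (BG.t_FREA8 BK.t_H90 BG.t_VAL8))
      (BH.t_FREBG (BH.t_FREAG BK.t_H90 BH.t_VALG)) BH.t_ALGG rec_BK sup_BG hT c8.cd (w4 := 2)
      (by decide) (w8 := 3)
      BG.e3 (Or.inl ⟨rfl, rfl, rfl, rfl, rfl, rfl⟩) (fun ι hι => (hM ι).1 hι) (fun ι hι => ?_)
      hc hodd hstr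
    rw [neg_neg]
    exact BH.MnG.m15_of ((hM ι).2 hι)
  · obtain ⟨s, c8⟩ := ho ha hb
    rw [neg_neg] at c8
    exact BH.MnG.core hi BG.t_RED8 BH.t_STRG (BG.t_FREB8 (BG.t_FREA8 BK.t_H90 BG.t_VAL8))
      (BH.t_FREBG (BH.t_FREAG BK.t_H90 BH.t_VALG)) BH.t_ALGG rec_BK sup_BG hT c8.cd (w4 := 3)
      (by decide) (w8 := 6)
      BG.e6 (Or.inr ⟨rfl, rfl, rfl, rfl, rfl, rfl⟩) (fun ι hι => (hM ι).2 hι)
      (fun ι hι => BH.MnG.m15_of ((hM ι).1 hι)) hc hodd hstr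

end Pool.Agent.H519.G2
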